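import Mathlib
import Pool.Agent.Helper697.PythDefs
import Pool.Agent.Helper697.PythData

/-!
Two-piece dissections of folded cubes for the Pythagorean triples `(3k, 4k, 5k)`.
-/

namespace Pool.Agent.Results.MP_4a7072_co.TripleThreeFourFive

open Pool.Agent.Helper697.Rep

/-- For every `k > 0` there is a polyomino of area `6 (5k) ^ 2` that folds onto the cube of edge
`5k` and is divided into two polyominoes folding onto the cubes of edges `3k` and `4k`. -/
theorem result : ∀ k : ℕ, 0 < k → TwoPiece (3 * k) (4 * k) (5 * k) := by
  intro k hk
  have := twoPiece_345.scale hk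
  rwa [mul_comm k 3, mul_comm k 4, mul_comm k 5] at this

end Pool.Agent.Results.MP_4a7072_co.TripleThreeFourFive
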